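import Pool.Agent.L7h3.GL.Stm

/-! Project GL, part CNT. -/

namespace Pool.Agent.L7h25.GL
open Pool.Agent.L7h3.GL

theorem s_CNT : S_CNT := by
  intro α β T S I _ hS hz h
  by_contra hlt
  push Not at hlt
  let s : α → ℚ := fun x => ((S.filter fun y => I x y).card : ℚ)
  let t : β → ℚ := fun z => ((T.filter fun y => I y z).card : ℚ)
  let m : ℚ := S.card
  let n : ℚ := T.card
  have hmn : m < n := by
    show (S.card : ℚ) < (T.card : ℚ)
    exact_mod_cast hlt
  have s0 : ∀ x, 0 ≤ s x := fun x => by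
    show (0 : ℚ) ≤ ((S.filter fun y => I x y).card : ℚ)
    positivity
  have t0 : ∀ x, 0 ≤ t x := fun x => by
    show (0 : ℚ) ≤ ((T.filter fun y => I y x).card : ℚ)
    positivity
  have cs : ∀ x, ((S.filter fun y => ¬ I x y).card : ℚ) = m - s x := by
    intro x
    have h1 := Finset.card_filter_add_card_filter_not (s := S) (fun y => I x y)
    show ((S.filter fun y => ¬ I x y).card : ℚ) = (S.card : ℚ) - ((S.filter fun y => I x y).card : ℚ)
    rw [← h1]
    push_cast
    ring
  have ct : ∀ z, ((T.filter fun y => ¬ I y z).card : ℚ) = n - t z := by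
    intro z
    have h1 := Finset.card_filter_add_card_filter_not (s := T) (fun y => I y z)
    show ((T.filter fun y => ¬ I y z).card : ℚ) = (T.card : ℚ) - ((T.filter fun y => I y z).card : ℚ)
    rw [← h1]
    push_cast
    ring
  have A : ∑ x ∈ T, ∑ z ∈ S, (if I x z then (0 : ℚ) else s x / (m - s x)) ≤ ∑ x ∈ T, s x := by
    apply Finset.sum_le_sum
    intro x hx
    have e : ∑ z ∈ S, (if I x z then (0 : ℚ) else s x / (m - s x))
        = (m - s x) * (s x / (m - s x)) := by
      rw [Finset.sum_ite, Finset.sum_const_zero, zero_add, Finset.sum_const, nsmul_eq_mul, cs x]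
    rw [e]
    by_cases h0 : m - s x = 0
    · rw [h0, zero_mul]
      exact s0 x
    · rw [mul_div_cancel₀ _ h0]
  have tn : ∀ z ∈ S, 0 < n - t z := by
    intro z hzS
    obtain ⟨x, hx, hn⟩ := hz z hzS
    rw [← ct z]
    have : 0 < (T.filter fun y => ¬ I y z).card :=
      Finset.card_pos.2 ⟨x, Finset.mem_filter.2 ⟨hx, hn⟩⟩
    exact_mod_cast this
  have sm : ∀ x, ∀ z ∈ S, ¬ I x z → 0 < m - s x := by
    intro x z hzS hn
    rw [← cs x]
    have : 0 < (S.filter fun y => ¬ I x y).card :=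
      Finset.card_pos.2 ⟨z, Finset.mem_filter.2 ⟨hzS, hn⟩⟩
    exact_mod_cast this
  have B : ∑ z ∈ S, ∑ x ∈ T, (if I x z then (0 : ℚ) else t z / (n - t z)) = ∑ z ∈ S, t z := by
    apply Finset.sum_congr rfl
    intro z hzS
    have e : ∑ x ∈ T, (if I x z then (0 : ℚ) else t z / (n - t z))
        = (n - t z) * (t z / (n - t z)) := by
      rw [Finset.sum_ite, Finset.sum_const_zero, zero_add, Finset.sum_const, nsmul_eq_mul, ct z]
    rw [e, mul_div_cancel₀ _ (tn z hzS).ne']
  have C : ∑ x ∈ T, s x = ∑ z ∈ S, t z := by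
    have e1 : ∀ x, s x = ∑ z ∈ S, (if I x z then (1 : ℚ) else 0) := by
      intro x
      show ((S.filter fun y => I x y).card : ℚ) = _
      rw [Finset.sum_boole]
    have e2 : ∀ z, t z = ∑ x ∈ T, (if I x z then (1 : ℚ) else 0) := by
      intro z
      show ((T.filter fun y => I y z).card : ℚ) = _
      rw [Finset.sum_boole]
    simp only [e1, e2]
    exact Finset.sum_comm
  have key : ∀ x ∈ T, ∀ z ∈ S, ¬ I x z → t z / (n - t z) < s x / (m - s x) := by
    intro x hx z hzS hn
    obtain ⟨h1, h2⟩ := h x hx z hzS hn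
    have h1' : t z ≤ s x := by
      show ((T.filter fun y => I y z).card : ℚ) ≤ ((S.filter fun y => I x y).card : ℚ)
      exact_mod_cast h1
    have h2' : 0 < s x := by
      show (0 : ℚ) < ((S.filter fun y => I x y).card : ℚ)
      exact_mod_cast h2
    have hm0 : 0 ≤ m := by
      show (0 : ℚ) ≤ (S.card : ℚ)
      positivity
    rw [div_lt_div_iff₀ (tn z hzS) (sm x z hzS hn)]
    nlinarith [mul_le_mul_of_nonneg_right h1' hm0, mul_lt_mul_of_pos_left hmn h2']
  have key' : ∀ x ∈ T, ∀ z ∈ S, (if I x z then (0 : ℚ) else t z / (n - t z))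
      ≤ (if I x z then (0 : ℚ) else s x / (m - s x)) := by
    intro x hx z hzS
    split_ifs with hi
    · exact le_refl _
    · exact (key x hx z hzS hi).le
  have D : ∑ x ∈ T, ∑ z ∈ S, (if I x z then (0 : ℚ) else t z / (n - t z))
      < ∑ x ∈ T, ∑ z ∈ S, (if I x z then (0 : ℚ) else s x / (m - s x)) := by
    obtain ⟨z, hzS⟩ := hS
    obtain ⟨x, hx, hn⟩ := hz z hzS
    apply Finset.sum_lt_sum
    · intro y hy
      exact Finset.sum_le_sum fun w hw => key' y hy w hw
    · refine ⟨x, hx, Finset.sum_lt_sum (fun w hw => key' x hx w hw) ⟨z, hzS, ?_⟩⟩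
      rw [if_neg hn, if_neg hn]
      exact key x hx z hzS hn
  have E : ∑ x ∈ T, ∑ z ∈ S, (if I x z then (0 : ℚ) else t z / (n - t z))
      = ∑ z ∈ S, t z := by
    rw [Finset.sum_comm]
    exact B
  rw [E] at D
  rw [C] at A
  exact absurd (lt_of_lt_of_le D A) (lt_irrefl _)

end Pool.Agent.L7h25.GL
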